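import Mathlib

set_option autoImplicit false

/-!
The definitions, and passing from a group without finite L-presentation to every group that maps
onto it with kernel the normal closure of a finite set.
-/

namespace Pool.Agent.Y589.LP

/-- `Γ` has no finite L-presentation. -/
def NoFiniteLPres (Γ : Type) [Group Γ] : Prop :=
  ¬ ∃ (m : ℕ) (Q R : Finset (FreeGroup (Fin m))) (Φ : Finset (Monoid.End (FreeGroup (Fin m)))),
      Nonempty (Γ ≃* PresentedGroup ((Q : Set (FreeGroup (Fin m))) ∪ {x : FreeGroup (Fin m) |
        ∃ φ ∈ Submonoid.closure (Φ : Set (Monoid.End (FreeGroup (Fin m)))), ∃ r ∈ R, x = φ r}))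

theorem of_surj {Γ G : Type} [Group Γ] [Group G] (hG : NoFiniteLPres G) (f : Γ →* G)
    (hf : Function.Surjective f) (T : Set Γ) (hT : T.Finite)
    (hk : f.ker = Subgroup.normalClosure T) : NoFiniteLPres Γ := by
  classical
  rintro ⟨m, Q, R, Φ, ⟨e⟩⟩
  apply hG
  set I : Set (FreeGroup (Fin m)) := {x : FreeGroup (Fin m) |
    ∃ φ ∈ Submonoid.closure (Φ : Set (Monoid.End (FreeGroup (Fin m)))), ∃ r ∈ R, x = φ r} with hI
  have hπ : Function.Surjective (PresentedGroup.mk ((Q : Set (FreeGroup (Fin m))) ∪ I)) :=
    PresentedGroup.mk_surjective _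
  choose w hw using fun t : Γ => hπ (e t)
  let F : FreeGroup (Fin m) →* G :=
    f.comp (e.symm.toMonoidHom.comp (PresentedGroup.mk ((Q : Set (FreeGroup (Fin m))) ∪ I)))
  have hFdef : ∀ x, F x = f (e.symm (PresentedGroup.mk ((Q : Set (FreeGroup (Fin m))) ∪ I) x)) :=
    fun x => rfl
  have hF : Function.Surjective F := by
    intro g
    obtain ⟨t, rfl⟩ := hf g
    refine ⟨w t, ?_⟩
    rw [hFdef, hw, MulEquiv.symm_apply_apply]
  refine ⟨m, Q ∪ hT.toFinset.image w, R, Φ, ⟨?_⟩⟩
  rw [← hI]
  have hker : F.ker = Subgroup.normalClosure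
      (((Q ∪ hT.toFinset.image w : Finset (FreeGroup (Fin m))) : Set (FreeGroup (Fin m))) ∪ I) := by
    apply le_antisymm
    · intro x hx
      rw [MonoidHom.mem_ker, hFdef] at hx
      have h1 : e.symm (PresentedGroup.mk ((Q : Set (FreeGroup (Fin m))) ∪ I) x) ∈
          Subgroup.normalClosure T := by
        rw [← hk]
        exact hx
      have h2 : PresentedGroup.mk ((Q : Set (FreeGroup (Fin m))) ∪ I) x ∈
          (Subgroup.normalClosure T).map e.toMonoidHom :=
        ⟨_, h1, e.apply_symm_apply _⟩
      rw [Subgroup.map_normalClosure _ _ e.surjective] at h2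
      have h3 : (e.toMonoidHom '' T : Set _) =
          PresentedGroup.mk ((Q : Set (FreeGroup (Fin m))) ∪ I) '' (w '' T) := by
        rw [Set.image_image]
        apply Set.image_congr
        intro t _
        exact (hw t).symm
      rw [h3, ← Subgroup.map_normalClosure _ _ hπ] at h2
      obtain ⟨y, hy, hyx⟩ := h2
      have h4 : y⁻¹ * x ∈ Subgroup.normalClosure ((Q : Set (FreeGroup (Fin m))) ∪ I) := by
        have : PresentedGroup.mk ((Q : Set (FreeGroup (Fin m))) ∪ I) (y⁻¹ * x) = 1 := by
          rw [map_mul, map_inv, hyx, inv_mul_cancel]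
        exact (QuotientGroup.eq_one_iff _).1 this
      have h5 : y ∈ Subgroup.normalClosure
          (((Q ∪ hT.toFinset.image w : Finset (FreeGroup (Fin m))) : Set (FreeGroup (Fin m))) ∪ I) := by
        refine Subgroup.normalClosure_mono ?_ hy
        rintro _ ⟨t, ht, rfl⟩
        left
        rw [Finset.coe_union]
        right
        exact Finset.mem_coe.2 (Finset.mem_image.2 ⟨t, hT.mem_toFinset.2 ht, rfl⟩)
      have h6 : y⁻¹ * x ∈ Subgroup.normalClosure
          (((Q ∪ hT.toFinset.image w : Finset (FreeGroup (Fin m))) : Set (FreeGroup (Fin m))) ∪ I) := by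
        refine Subgroup.normalClosure_mono ?_ h4
        apply Set.union_subset_union_left
        rw [Finset.coe_union]
        exact Set.subset_union_left
      have h7 := Subgroup.mul_mem _ h5 h6
      rwa [mul_inv_cancel_left] at h7
    · apply Subgroup.normalClosure_le_normal
      intro x hx
      rw [SetLike.mem_coe, MonoidHom.mem_ker, hFdef]
      have h0 : ∀ x ∈ ((Q : Set (FreeGroup (Fin m))) ∪ I),
          PresentedGroup.mk ((Q : Set (FreeGroup (Fin m))) ∪ I) x = 1 := by
        intro x hx
        exact (QuotientGroup.eq_one_iff _).2 (Subgroup.subset_normalClosure hx)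
      rcases hx with hx | hx
      · rw [Finset.coe_union] at hx
        rcases hx with hx | hx
        · rw [h0 x (Or.inl hx), map_one, map_one]
        · obtain ⟨t, ht, rfl⟩ := Finset.mem_image.1 (Finset.mem_coe.1 hx)
          rw [hw, MulEquiv.symm_apply_apply]
          have : t ∈ f.ker := by
            rw [hk]
            exact Subgroup.subset_normalClosure (hT.mem_toFinset.1 ht)
          exact this
      · rw [h0 x (Or.inr hx), map_one, map_one]
  exact (QuotientGroup.quotientKerEquivOfSurjective F hF).symm.trans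
    (QuotientGroup.quotientMulEquivOfEq hker)

/-- A contracting self-similar group of permutations of the set of words over `X`. -/
structure Contracting {X : Type} (G : Subgroup (Equiv.Perm (List X))) : Prop where
  /-- finite generation -/
  fg : Group.FG G
  /-- the empty word is fixed -/
  nil : ∀ g ∈ G, g [] = []
  /-- sections at letters exist and lie in the group -/
  selfSimilar : ∀ g ∈ G, ∀ x : X, ∃ y : X, ∃ h ∈ G, ∀ w : List X, g (x :: w) = y :: h w
  /-- a finite nucleus -/
  nucleus : ∃ N : Finset (Equiv.Perm (List X)), (∀ h ∈ N, h ∈ G) ∧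
    ∀ g ∈ G, ∃ k : ℕ, ∀ v : List X, k ≤ v.length →
      ∃ h ∈ N, ∀ w : List X, g (v ++ w) = g v ++ h w

namespace Contracting

variable {X : Type} {G : Subgroup (Equiv.Perm (List X))}

theorem length_eq (hG : Contracting G) (w : List X) : ∀ g ∈ G, (g w).length = w.length := by
  induction w with
  | nil =>
    intro g hg
    rw [hG.nil g hg]
  | cons x w ih =>
    intro g hg
    obtain ⟨y, h, hh, h1⟩ := hG.selfSimilar g hg x
    rw [h1, List.length_cons, List.length_cons, ih h hh]

end Contracting

end Pool.Agent.Y589.LP
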