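import Pool.Agent.Y589.LP.Base

set_option autoImplicit false

/-!
Elementary abelian 2-groups as contracting self-similar groups over the two letters of `ZMod 2`,
and counting of homomorphisms to the group of order two.
-/

namespace Pool.Agent.Y589.LP

/-- adding a sequence to a word, letter by letter -/
def addSeq (a : ℕ → ZMod 2) : List (ZMod 2) → List (ZMod 2)
  | [] => []
  | x :: w => (a 0 + x) :: addSeq (fun n => a (n + 1)) w

theorem addSeq_zero (w : List (ZMod 2)) : addSeq (fun _ => 0) w = w := by
  induction w with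
  | nil => rfl
  | cons x w ih =>
    show (0 + x) :: addSeq (fun _ => 0) w = x :: w
    rw [ih, zero_add]

theorem addSeq_add (w : List (ZMod 2)) : ∀ a b : ℕ → ZMod 2,
    addSeq a (addSeq b w) = addSeq (fun n => a n + b n) w := by
  induction w with
  | nil => intro a b; rfl
  | cons x w ih =>
    intro a b
    show (a 0 + (b 0 + x)) :: addSeq _ (addSeq _ w) = (a 0 + b 0 + x) :: addSeq _ w
    rw [ih, add_assoc]

/-- the length of a translated word -/
theorem addSeq_append (v : List (ZMod 2)) : ∀ (a : ℕ → ZMod 2) (w : List (ZMod 2)),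
    addSeq a (v ++ w) = addSeq a v ++ addSeq (fun n => a (n + v.length)) w := by
  induction v with
  | nil => intro a w; rfl
  | cons x v ih =>
    intro a w
    show (a 0 + x) :: addSeq (fun n => a (n + 1)) (v ++ w) =
      (a 0 + x) :: (addSeq (fun n => a (n + 1)) v ++ addSeq (fun n => a (n + (x :: v).length)) w)
    rw [ih]
    have : (fun n => a (n + v.length + 1)) = fun n => a (n + (x :: v).length) := by
      funext n
      rw [List.length_cons, add_assoc]
    rw [this]

/-- the translation action of all sequences -/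
def seqHom : Multiplicative (ℕ → ZMod 2) →* Equiv.Perm (List (ZMod 2)) where
  toFun a :=
    { toFun := addSeq (Multiplicative.toAdd a)
      invFun := addSeq (fun n => - Multiplicative.toAdd a n)
      left_inv := fun w => by
        rw [addSeq_add]
        simp only [neg_add_cancel]
        exact addSeq_zero w
      right_inv := fun w => by
        rw [addSeq_add]
        simp only [add_neg_cancel]
        exact addSeq_zero w }
  map_one' := by
    apply Equiv.ext
    intro w
    exact addSeq_zero w
  map_mul' a b := by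
    apply Equiv.ext
    intro w
    exact (addSeq_add w _ _).symm

theorem seqHom_apply (a : Multiplicative (ℕ → ZMod 2)) (w : List (ZMod 2)) :
    seqHom a w = addSeq (Multiplicative.toAdd a) w := rfl

theorem addSeq_inj (a : ℕ → ZMod 2) (h : ∀ w, addSeq a w = w) : ∀ n, a n = 0 := by
  intro n
  have h1 := h (List.replicate n 0 ++ [0])
  rw [addSeq_append, h] at h1
  have h2 := List.append_cancel_left h1
  have h3 : a (0 + (List.replicate n (0 : ZMod 2)).length) + 0 = 0 := (List.cons.inj h2).1
  rw [List.length_replicate, zero_add, add_zero] at h3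
  exact h3

/-- extension by zero -/
def extZ (n : ℕ) : (Fin n → ZMod 2) →+ (ℕ → ZMod 2) where
  toFun a i := if h : i < n then a ⟨i, h⟩ else 0
  map_zero' := by
    funext i
    split <;> rfl
  map_add' a b := by
    funext i
    show (if h : i < n then (a + b) ⟨i, h⟩ else 0) =
      (if h : i < n then a ⟨i, h⟩ else 0) + (if h : i < n then b ⟨i, h⟩ else 0)
    split
    · rfl
    · rw [add_zero]

theorem extZ_apply (n : ℕ) (a : Fin n → ZMod 2) (i : ℕ) :
    extZ n a i = if h : i < n then a ⟨i, h⟩ else 0 := rfl

theorem extZ_shift (n : ℕ) (a : Fin n → ZMod 2) (m : ℕ) :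
    ∃ b : Fin n → ZMod 2, (fun i => extZ n a (i + m)) = extZ n b := by
  refine ⟨fun i => extZ n a (i + m), ?_⟩
  funext i
  rw [extZ_apply n _ i]
  split
  · rfl
  · rename_i h
    rw [extZ_apply, dif_neg (by omega)]

/-- the homomorphism defining the elementary abelian group of rank `n` -/
def twoHom (n : ℕ) : Multiplicative (Fin n → ZMod 2) →* Equiv.Perm (List (ZMod 2)) :=
  seqHom.comp (AddMonoidHom.toMultiplicative (extZ n))

theorem twoHom_apply (n : ℕ) (a : Multiplicative (Fin n → ZMod 2)) (w : List (ZMod 2)) :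
    twoHom n a w = addSeq (extZ n (Multiplicative.toAdd a)) w := rfl

theorem twoHom_injective (n : ℕ) : Function.Injective (twoHom n) := by
  rw [injective_iff_map_eq_one]
  intro a ha
  have h1 : ∀ w, addSeq (extZ n (Multiplicative.toAdd a)) w = w := fun w => by
    rw [← twoHom_apply, ha]
    rfl
  have h2 := addSeq_inj _ h1
  apply Multiplicative.toAdd.injective
  funext i
  have h3 := h2 i
  rw [extZ_apply, dif_pos i.2] at h3
  exact h3

theorem contracting_two (n : ℕ) : Contracting (twoHom n).range := by
  classical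
  refine ⟨?_, ?_, ?_, ?_⟩
  · exact Group.fg_of_surjective (f := (twoHom n).rangeRestrict)
      (MonoidHom.rangeRestrict_surjective _)
  · rintro _ ⟨a, rfl⟩
    rfl
  · rintro _ ⟨a, rfl⟩ x
    obtain ⟨b, hb⟩ := extZ_shift n (Multiplicative.toAdd a) 1
    refine ⟨extZ n (Multiplicative.toAdd a) 0 + x, twoHom n (Multiplicative.ofAdd b), ⟨_, rfl⟩,
      fun w => ?_⟩
    rw [twoHom_apply, twoHom_apply, toAdd_ofAdd, ← hb]
    rfl
  · refine ⟨{1}, ?_, ?_⟩
    · intro h hh
      rw [Finset.mem_singleton] at hh
      rw [hh]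
      exact Subgroup.one_mem _
    · rintro _ ⟨a, rfl⟩
      refine ⟨n, fun v hv => ⟨1, Finset.mem_singleton_self _, fun w => ?_⟩⟩
      rw [twoHom_apply, twoHom_apply, addSeq_append]
      have : (fun i => extZ n (Multiplicative.toAdd a) (i + v.length)) = fun _ => 0 := by
        funext i
        rw [extZ_apply, dif_neg (by omega)]
      rw [this, addSeq_zero]
      rfl

/-- the number of homomorphisms to the group of order two -/
noncomputable def hcount (Γ : Type) [Group Γ] : ℕ := Nat.card (Γ →* Multiplicative (ZMod 2))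

theorem hcount_congr {Γ Δ : Type} [Group Γ] [Group Δ] (e : Γ ≃* Δ) : hcount Γ = hcount Δ :=
  Nat.card_congr
    { toFun := fun f => f.comp e.symm.toMonoidHom
      invFun := fun f => f.comp e.toMonoidHom
      left_inv := fun f => by
        ext x
        exact congrArg (fun y => Multiplicative.toAdd (f y)) (e.symm_apply_apply x)
      right_inv := fun f => by
        ext x
        exact congrArg (fun y => Multiplicative.toAdd (f y)) (e.apply_symm_apply x) }

theorem hcount_prod (Γ Δ : Type) [Group Γ] [Group Δ] : hcount (Γ × Δ) = hcount Γ * hcount Δ := by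
  unfold hcount
  rw [← Nat.card_prod]
  exact Nat.card_congr
    { toFun := fun f => (f.comp (MonoidHom.inl Γ Δ), f.comp (MonoidHom.inr Γ Δ))
      invFun := fun f => f.1.coprod f.2
      left_inv := fun f => MonoidHom.coprod_unique f
      right_inv := fun f => Prod.ext (MonoidHom.coprod_comp_inl _ _) (MonoidHom.coprod_comp_inr _ _) }

theorem hcount_pos (Γ : Type) [Group Γ] [hfg : Group.FG Γ] : 0 < hcount Γ := by
  classical
  obtain ⟨S, hS⟩ := (Group.fg_def.1 hfg)
  have : Finite (Γ →* Multiplicative (ZMod 2)) := by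
    have hfin : Finite (S → Multiplicative (ZMod 2)) := by
      have : Finite (Multiplicative (ZMod 2)) := inferInstanceAs (Finite (ZMod 2))
      infer_instance
    refine Finite.of_injective (fun (f : Γ →* Multiplicative (ZMod 2)) (s : S) => f s) ?_
    intro f g hfg
    apply MonoidHom.eq_of_eqOn_dense hS
    intro s hs
    exact congrFun hfg ⟨s, hs⟩
  exact Nat.card_pos

theorem hcount_two (n : ℕ) : hcount (Multiplicative (Fin n → ZMod 2)) = 2 ^ n := by
  unfold hcount
  have e1 : ((Fin n → ZMod 2) →+ ZMod 2) ≃
      (Multiplicative (Fin n → ZMod 2) →* Multiplicative (ZMod 2)) := AddMonoidHom.toMultiplicative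
  have e2 : ((Fin n → ZMod 2) →+ ZMod 2) ≃ ((Fin n → ZMod 2) →ₗ[ZMod 2] ZMod 2) :=
    (AddMonoidHom.toZModLinearMapEquiv 2).toEquiv
  have e3 : (Fin n → ZMod 2) ≃ ((Fin n → ZMod 2) →ₗ[ZMod 2] ZMod 2) :=
    ((Pi.basisFun (ZMod 2) (Fin n)).constr (ZMod 2)).toEquiv
  rw [← Nat.card_congr e1, Nat.card_congr e2, ← Nat.card_congr e3, Nat.card_eq_fintype_card,
    Fintype.card_fun, ZMod.card, Fintype.card_fin]

theorem not_iso {Γ : Type} [Group Γ] [Group.FG Γ] {n m : ℕ}
    (h : Nonempty (Γ × Multiplicative (Fin n → ZMod 2) ≃* Γ × Multiplicative (Fin m → ZMod 2))) :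
    n = m := by
  obtain ⟨e⟩ := h
  have h1 := hcount_congr e
  rw [hcount_prod, hcount_prod, hcount_two, hcount_two] at h1
  have h2 := Nat.eq_of_mul_eq_mul_left (hcount_pos Γ) h1
  exact Nat.pow_right_injective (le_refl 2) h2

end Pool.Agent.Y589.LP
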