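import Pool.Agent.Y589.LP.Sum
import Pool.Agent.Y589.LP.Two
import Pool.Agent.Helper940.GLFinal

set_option autoImplicit false

/-!
Consequences for the contracting group without finite L-presentation.
-/

namespace Pool.Agent.Y589.LP

theorem of_retract {Γ G : Type} [Group Γ] [Group G] [Group.FG Γ] (hG : NoFiniteLPres G)
    (f : Γ →* G) (s : G →* Γ) (hs : ∀ g, f (s g) = g) : NoFiniteLPres Γ := by
  classical
  obtain ⟨S, hS⟩ := (Group.fg_def.1 (inferInstance : Group.FG Γ))
  set T : Set Γ := (fun x => x * (s (f x))⁻¹) '' (S : Set Γ) with hT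
  refine of_surj hG f (fun g => ⟨s g, hs g⟩) T ((Finset.finite_toSet S).image _) ?_
  apply le_antisymm
  · intro x hx
    have h1 : QuotientGroup.mk' (Subgroup.normalClosure T) =
        (QuotientGroup.mk' (Subgroup.normalClosure T)).comp (s.comp f) := by
      apply MonoidHom.eq_of_eqOn_dense hS
      intro x hx
      have h2 : x * (s (f x))⁻¹ ∈ Subgroup.normalClosure T :=
        Subgroup.subset_normalClosure ⟨x, hx, rfl⟩
      have h3 : QuotientGroup.mk' (Subgroup.normalClosure T) (x * (s (f x))⁻¹) = 1 :=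
        (QuotientGroup.eq_one_iff _).2 h2
      rw [map_mul, map_inv, mul_inv_eq_one] at h3
      exact h3
    have h2 := DFunLike.congr_fun h1 x
    rw [MonoidHom.comp_apply, MonoidHom.comp_apply, (MonoidHom.mem_ker.1 hx), map_one,
      map_one] at h2
    exact (QuotientGroup.eq_one_iff _).1 h2
  · apply Subgroup.normalClosure_le_normal
    rintro _ ⟨x, _, rfl⟩
    show f (x * (s (f x))⁻¹) = 1
    rw [map_mul, map_inv, hs, mul_inv_cancel]

/-- the first block of letters -/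
def blockE (d n : ℕ) (h : d ≤ n) : Block (Fin d) (Fin n) where
  i x := ⟨x, x.2.trans_le h⟩
  p z := if h : (z : ℕ) < d then some ⟨z, h⟩ else none
  pi x := by
    rw [dif_pos x.2]
  ip z x hx := by
    by_cases h1 : (z : ℕ) < d
    · rw [dif_pos h1] at hx
      have := Option.some.inj hx
      rw [← this]
    · rw [dif_neg h1] at hx
      exact absurd hx (by simp)

/-- the second block of letters -/
def blockF {Y : Type} (d n c : ℕ) (e : Y ≃ Fin c) (h : d + c ≤ n) : Block Y (Fin n) where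
  i y := ⟨d + e y, by have := (e y).2; omega⟩
  p z := if h : d ≤ (z : ℕ) ∧ (z : ℕ) - d < c then some (e.symm ⟨(z : ℕ) - d, h.2⟩) else none
  pi y := by
    have h0 := (e y).2
    rw [dif_pos (show d ≤ d + (e y : ℕ) ∧ d + (e y : ℕ) - d < c by omega)]
    congr 1
    rw [Equiv.symm_apply_eq]
    apply Fin.ext
    show d + (e y : ℕ) - d = e y
    omega
  ip z y hy := by
    by_cases h1 : d ≤ (z : ℕ) ∧ (z : ℕ) - d < c
    · rw [dif_pos h1] at hy
      have h2 := Option.some.inj hy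
      rw [Equiv.symm_apply_eq] at h2
      have h3 := congrArg Fin.val h2
      apply Fin.ext
      show (z : ℕ) = d + (e y : ℕ)
      have h4 : (z : ℕ) - d = e y := h3
      omega
    · rw [dif_neg h1] at hy
      exact absurd hy (by simp)

theorem sum_exists {d : ℕ} {G : Subgroup (Equiv.Perm (List (Fin d)))} (hG : Contracting G)
    (Y : Type) [Fintype Y] (K : Subgroup (Equiv.Perm (List Y))) (hK : Contracting K)
    (n : ℕ) (hn : d + Fintype.card Y ≤ n) :
    ∃ P : Subgroup (Equiv.Perm (List (Fin n))), Contracting P ∧ Nonempty (P ≃* G × K) := by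
  have h1 : ∀ y, (blockE d n (by omega)).p ((blockF d n _ (Fintype.equivFin Y) hn).i y) = none := by
    intro y
    show (if h : d + (Fintype.equivFin Y y : ℕ) < d then _ else none) = none
    rw [dif_neg (by omega)]
  have h2 : ∀ x, (blockF d n _ (Fintype.equivFin Y) hn).p ((blockE d n (by omega)).i x) = none := by
    intro x
    show (if h : d ≤ (x : ℕ) ∧ (x : ℕ) - d < Fintype.card Y then _ else none) = none
    rw [dif_neg (by have := x.2; omega)]
  exact ⟨_, contracting_sum _ _ h1 h2 hG hK,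
    ⟨(MonoidHom.ofInjective (sumHom_injective _ _ h1 h2 hG hK)).symm⟩⟩

/-- sections along words -/
theorem sections {X : Type} (G : Subgroup (Equiv.Perm (List X))) (h0 : ∀ g ∈ G, g [] = [])
    (h1 : ∀ g ∈ G, ∀ x : X, ∃ y : X, ∃ h ∈ G, ∀ w : List X, g (x :: w) = y :: h w)
    (v : List X) : ∀ g ∈ G, ∃ h ∈ G, ∀ w : List X, g (v ++ w) = g v ++ h w := by
  induction v with
  | nil =>
    intro g hg
    exact ⟨g, hg, fun w => by rw [h0 g hg]; rfl⟩
  | cons x v ih =>
    intro g hg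
    obtain ⟨y, s, hs, h2⟩ := h1 g hg x
    obtain ⟨h, hh, h3⟩ := ih s hs
    refine ⟨h, hh, fun w => ?_⟩
    rw [List.cons_append, h2, h2, h3, List.cons_append]

theorem base_group : ∃ (d : ℕ) (G : Subgroup (Equiv.Perm (List (Fin d)))),
    2 ≤ d ∧ Contracting G ∧ NoFiniteLPres G := by
  classical
  obtain ⟨d, G, h1, h2, h3, h4, ⟨N, hN⟩, h6⟩ := Pool.Agent.Helper940.GL.main
  refine ⟨d, G, h1, ⟨h2, h3, h4, ⟨N.filter fun h => h ∈ G, ?_, ?_⟩⟩, h6⟩
  · intro h hh
    exact (Finset.mem_filter.1 hh).2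
  · intro g hg
    obtain ⟨k, hk⟩ := hN g hg
    refine ⟨k, fun v hv => ?_⟩
    obtain ⟨h, hh, h7⟩ := sections G h3 h4 v g hg
    exact ⟨h, Finset.mem_filter.2 ⟨hk v hv h hh h7, hh⟩, h7⟩

theorem prod_none {G K : Type} [Group G] [Group K] [Group.FG G] [Group.FG K]
    (hG : NoFiniteLPres G) : NoFiniteLPres (G × K) :=
  of_retract hG (MonoidHom.fst G K) (MonoidHom.inl G K) fun _ => rfl

theorem none_congr {Γ Δ : Type} [Group Γ] [Group Δ] (e : Γ ≃* Δ) (h : NoFiniteLPres Δ) :
    NoFiniteLPres Γ := by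
  rintro ⟨m, Q, R, Φ, ⟨f⟩⟩
  exact h ⟨m, Q, R, Φ, ⟨e.symm.trans f⟩⟩

theorem sum_none {d : ℕ} {G : Subgroup (Equiv.Perm (List (Fin d)))} (hG : Contracting G)
    (h : NoFiniteLPres G) (Y : Type) [Fintype Y] (K : Subgroup (Equiv.Perm (List Y)))
    (hK : Contracting K) (n : ℕ) (hn : d + Fintype.card Y ≤ n) :
    ∃ P : Subgroup (Equiv.Perm (List (Fin n))),
      Contracting P ∧ NoFiniteLPres P ∧ Nonempty (P ≃* G × K) := by
  obtain ⟨P, h1, ⟨e⟩⟩ := sum_exists hG Y K hK n hn
  have := hG.fg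
  have := hK.fg
  exact ⟨P, h1, none_congr e (prod_none h), ⟨e⟩⟩

theorem infinitely_many {d : ℕ} {G : Subgroup (Equiv.Perm (List (Fin d)))} (hG : Contracting G)
    (h : NoFiniteLPres G) (n : ℕ) (hn : d + 2 ≤ n) :
    ∃ P : ℕ → Subgroup (Equiv.Perm (List (Fin n))),
      (∀ i, Contracting (P i) ∧ NoFiniteLPres (P i)) ∧
      ∀ i j, Nonempty (P i ≃* P j) → i = j := by
  have h0 : ∀ i : ℕ, ∃ P : Subgroup (Equiv.Perm (List (Fin n))), Contracting P ∧ NoFiniteLPres P ∧
      Nonempty (P ≃* G × Multiplicative (Fin i → ZMod 2)) := by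
    intro i
    obtain ⟨P, h1, h2, ⟨e⟩⟩ := sum_none hG h (ZMod 2) (twoHom i).range (contracting_two i) n
      (by rw [ZMod.card]; exact hn)
    exact ⟨P, h1, h2, ⟨e.trans (MulEquiv.prodCongr (MulEquiv.refl G)
      (MonoidHom.ofInjective (twoHom_injective i)).symm)⟩⟩
  choose P h1 h2 h3 using h0
  refine ⟨P, fun i => ⟨h1 i, h2 i⟩, ?_⟩
  rintro i j ⟨e⟩
  obtain ⟨e1⟩ := h3 i
  obtain ⟨e2⟩ := h3 j
  have := hG.fg
  exact not_iso ⟨e1.symm.trans (e.trans e2)⟩

end Pool.Agent.Y589.LP
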