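import Pool.Agent.Y589.LP.Base

set_option autoImplicit false

/-!
The sum action: two groups acting on words over two disjoint blocks of letters of one alphabet.
-/

namespace Pool.Agent.Y589.LP

/-- a block of letters, with the partial inverse of the inclusion -/
structure Block (X Z : Type) where
  /-- the inclusion -/
  i : X → Z
  /-- the partial inverse -/
  p : Z → Option X
  pi : ∀ x, p (i x) = some x
  ip : ∀ z x, p z = some x → z = i x

namespace Block

variable {X Y Z : Type} (E : Block X Z)

theorem inj : Function.Injective E.i := by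
  intro a b h
  have h1 := E.pi a
  rw [h, E.pi b] at h1
  exact (Option.some.inj h1).symm

/-- splitting off the maximal prefix in the letters of the block -/
def pre : List Z → List X × List Z
  | [] => ([], [])
  | z :: w => match E.p z with
    | some x => (x :: (pre w).1, (pre w).2)
    | none => ([], z :: w)

theorem pre_nil : E.pre [] = ([], []) := rfl

theorem pre_some {z : Z} {x : X} (h : E.p z = some x) (w : List Z) :
    E.pre (z :: w) = (x :: (E.pre w).1, (E.pre w).2) := by
  show (match E.p z with
    | some x => (x :: (E.pre w).1, (E.pre w).2)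
    | none => ([], z :: w)) = _
  rw [h]

theorem pre_none {z : Z} (h : E.p z = none) (w : List Z) : E.pre (z :: w) = ([], z :: w) := by
  show (match E.p z with
    | some x => (x :: (E.pre w).1, (E.pre w).2)
    | none => ([], z :: w)) = _
  rw [h]

theorem pre_join (w : List Z) : (E.pre w).1.map E.i ++ (E.pre w).2 = w := by
  induction w with
  | nil => rfl
  | cons z w ih =>
    cases h : E.p z with
    | none => rw [E.pre_none h]; rfl
    | some x =>
      rw [E.pre_some h, List.map_cons, List.cons_append, ih, ← E.ip z x h]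

theorem pre_map (u : List X) (t : List Z) :
    E.pre (u.map E.i ++ t) = (u ++ (E.pre t).1, (E.pre t).2) := by
  induction u with
  | nil => rfl
  | cons x u ih =>
    rw [List.map_cons, List.cons_append, E.pre_some (E.pi x), ih]
    rfl

theorem pre_pre (w : List Z) : E.pre (E.pre w).2 = ([], (E.pre w).2) := by
  induction w with
  | nil => rfl
  | cons z w ih =>
    cases h : E.p z with
    | none => rw [E.pre_none h, E.pre_none h]
    | some x => rw [E.pre_some h, ih]

/-- acting on the maximal prefix in the letters of the block -/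
def lft (g : Equiv.Perm (List X)) (w : List Z) : List Z :=
  (g (E.pre w).1).map E.i ++ (E.pre w).2

theorem lft_mul (g g' : Equiv.Perm (List X)) (w : List Z) :
    E.lft g (E.lft g' w) = E.lft (g * g') w := by
  have h : E.pre (E.lft g' w) = (g' (E.pre w).1, (E.pre w).2) := by
    unfold lft
    rw [pre_map, pre_pre, List.append_nil]
  show (g (E.pre (E.lft g' w)).1).map E.i ++ (E.pre (E.lft g' w)).2 = _
  rw [h]
  rfl

theorem lft_one (w : List Z) : E.lft 1 w = w := E.pre_join w

/-- the lifting homomorphism -/
def lftHom : Equiv.Perm (List X) →* Equiv.Perm (List Z) where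
  toFun g :=
    { toFun := E.lft g
      invFun := E.lft g⁻¹
      left_inv := fun w => by rw [lft_mul, inv_mul_cancel, lft_one]
      right_inv := fun w => by rw [lft_mul, mul_inv_cancel, lft_one] }
  map_one' := by
    apply Equiv.ext
    intro w
    exact E.lft_one w
  map_mul' g k := by
    apply Equiv.ext
    intro w
    exact (E.lft_mul g k w).symm

theorem lftHom_apply (g : Equiv.Perm (List X)) (w : List Z) : E.lftHom g w = E.lft g w := rfl

/-- words that do not begin with a letter of the block -/
def Off (w : List Z) : Prop := w = [] ∨ ∃ z t, w = z :: t ∧ E.p z = none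

theorem lft_off {g : Equiv.Perm (List X)} (hg : g [] = []) {w : List Z} (h : E.Off w) :
    E.lft g w = w := by
  rcases h with rfl | ⟨z, t, rfl, h⟩
  · show (g []).map E.i ++ [] = []
    rw [hg]
    rfl
  · show (g (E.pre (z :: t)).1).map E.i ++ (E.pre (z :: t)).2 = z :: t
    rw [E.pre_none h, hg]
    rfl

theorem lft_map (g : Equiv.Perm (List X)) (u : List X) : E.lft g (u.map E.i) = (g u).map E.i := by
  have h : E.pre (u.map E.i) = (u, []) := by
    have := E.pre_map u []
    rwa [List.append_nil, pre_nil, List.append_nil] at this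
  show (g (E.pre (u.map E.i)).1).map E.i ++ (E.pre (u.map E.i)).2 = _
  rw [h, List.append_nil]

theorem lft_map_append {g h : Equiv.Perm (List X)} {u : List X}
    (hh : ∀ w, g (u ++ w) = g u ++ h w) (w : List Z) :
    E.lft g (u.map E.i ++ w) = E.lft g (u.map E.i) ++ E.lft h w := by
  rw [lft_map]
  show (g (E.pre (u.map E.i ++ w)).1).map E.i ++ (E.pre (u.map E.i ++ w)).2 =
    (g u).map E.i ++ ((h (E.pre w).1).map E.i ++ (E.pre w).2)
  rw [pre_map]
  show (g (u ++ (E.pre w).1)).map E.i ++ (E.pre w).2 = _
  rw [hh, List.map_append, List.append_assoc]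

theorem lft_cases (g : Equiv.Perm (List X)) (v : List Z) :
    (∃ u : List X, v = u.map E.i) ∨ ∀ w, E.lft g (v ++ w) = E.lft g v ++ w := by
  have h0 := E.pre_join v
  have h1 := E.pre_pre v
  cases h2 : (E.pre v).2 with
  | nil =>
    left
    refine ⟨(E.pre v).1, ?_⟩
    rw [h2, List.append_nil] at h0
    exact h0.symm
  | cons z t =>
    right
    intro w
    have h3 : E.p z = none := by
      cases h4 : E.p z with
      | none => rfl
      | some x =>
        rw [h2, E.pre_some h4] at h1
        exact absurd (congrArg Prod.fst h1) (List.cons_ne_nil _ _)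
    have h5 : E.pre (v ++ w) = ((E.pre v).1, (E.pre v).2 ++ w) := by
      conv_lhs => rw [← h0, List.append_assoc, pre_map, h2, List.cons_append, E.pre_none h3]
      rw [h2, List.append_nil]
      rfl
    show (g (E.pre (v ++ w)).1).map E.i ++ (E.pre (v ++ w)).2 =
      ((g (E.pre v).1).map E.i ++ (E.pre v).2) ++ w
    rw [h5, List.append_assoc]

theorem lft_cons {g h : Equiv.Perm (List X)} {x y : X}
    (hh : ∀ w, g (x :: w) = y :: h w) {z : Z} (hz : E.p z = some x) (w : List Z) :
    E.lft g (z :: w) = E.i y :: E.lft h w := by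
  show (g (E.pre (z :: w)).1).map E.i ++ (E.pre (z :: w)).2 = _
  rw [E.pre_some hz]
  show (g (x :: (E.pre w).1)).map E.i ++ (E.pre w).2 = _
  rw [hh]
  rfl

end Block

section

variable {X Y Z : Type} (E : Block X Z) (F : Block Y Z) (hd : ∀ y, E.p (F.i y) = none)
  (hd' : ∀ x, F.p (E.i x) = none)
variable {G : Subgroup (Equiv.Perm (List X))} {K : Subgroup (Equiv.Perm (List Y))}

include hd in
/-- words not beginning with a letter of one block, under the other group -/
theorem off_lft (hK : Contracting K) {k : Equiv.Perm (List Y)} (hk : k ∈ K) {w : List Z}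
    (h : E.Off w) : E.Off (F.lft k w) := by
  rcases h with rfl | ⟨z, t, rfl, h⟩
  · left
    show (k []).map F.i ++ [] = []
    rw [hK.nil k hk]
    rfl
  · right
    cases hz : F.p z with
    | none =>
      refine ⟨z, t, ?_, h⟩
      exact F.lft_off (hK.nil k hk) (Or.inr ⟨z, t, rfl, hz⟩)
    | some y =>
      obtain ⟨y', l, _, h1⟩ := hK.selfSimilar k hk y
      exact ⟨_, _, F.lft_cons h1 hz t, hd y'⟩

include hd' in
theorem off_or (w : List Z) : E.Off w ∨ F.Off w := by
  cases w with
  | nil => exact Or.inl (Or.inl rfl)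
  | cons z t =>
    cases hz : E.p z with
    | none => exact Or.inl (Or.inr ⟨z, t, rfl, hz⟩)
    | some x =>
      right
      right
      refine ⟨z, t, rfl, ?_⟩
      rw [E.ip z x hz]
      exact hd' x

include hd hd' in
theorem lft_comm (hG : Contracting G) (hK : Contracting K) {g : Equiv.Perm (List X)} (hg : g ∈ G)
    {k : Equiv.Perm (List Y)} (hk : k ∈ K) (w : List Z) :
    E.lft g (F.lft k w) = F.lft k (E.lft g w) := by
  rcases off_or E F hd' w with h | h
  · rw [E.lft_off (hG.nil g hg) (off_lft E F hd hK hk h), E.lft_off (hG.nil g hg) h]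
  · rw [F.lft_off (hK.nil k hk) h, F.lft_off (hK.nil k hk) (off_lft F E hd' hG hg h)]

/-- the sum action as a homomorphism -/
def sumHom (hG : Contracting G) (hK : Contracting K) : G × K →* Equiv.Perm (List Z) :=
  MonoidHom.noncommCoprod (E.lftHom.comp G.subtype) (F.lftHom.comp K.subtype)
    (fun g k => Equiv.ext fun w => lft_comm E F hd hd' hG hK g.2 k.2 w)

theorem sumHom_apply (hG : Contracting G) (hK : Contracting K) (p : G × K) (w : List Z) :
    sumHom E F hd hd' hG hK p w = E.lft p.1.1 (F.lft p.2.1 w) := rfl

theorem sumHom_injective (hG : Contracting G) (hK : Contracting K) :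
    Function.Injective (sumHom E F hd hd' hG hK) := by
  rw [injective_iff_map_eq_one]
  intro p hp
  have h1 : ∀ w, E.lft p.1.1 (F.lft p.2.1 w) = w := fun w => by
    rw [← sumHom_apply E F hd hd' hG hK, hp]
    rfl
  have hE : ∀ u : List X, F.Off (u.map E.i) := by
    intro u
    cases u with
    | nil => exact Or.inl rfl
    | cons x u => exact Or.inr ⟨_, _, rfl, hd' x⟩
  have hF : ∀ u : List Y, E.Off (u.map F.i) := by
    intro u
    cases u with
    | nil => exact Or.inl rfl
    | cons y u => exact Or.inr ⟨_, _, rfl, hd y⟩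
  apply Prod.ext
  · apply Subtype.ext
    apply Equiv.ext
    intro u
    have h2 := h1 (u.map E.i)
    rw [F.lft_off (hK.nil _ p.2.2) (hE u), E.lft_map] at h2
    exact E.inj.list_map h2
  · apply Subtype.ext
    apply Equiv.ext
    intro u
    have h2 := h1 (u.map F.i)
    rw [lft_comm E F hd hd' hG hK p.1.2 p.2.2, E.lft_off (hG.nil _ p.1.2) (hF u), F.lft_map] at h2
    exact F.inj.list_map h2

theorem contracting_sum (hG : Contracting G) (hK : Contracting K) :
    Contracting (sumHom E F hd hd' hG hK).range := by
  classical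
  have := hG.fg
  have := hK.fg
  refine ⟨?_, ?_, ?_, ?_⟩
  · exact Group.fg_of_surjective (f := (sumHom E F hd hd' hG hK).rangeRestrict)
      (MonoidHom.rangeRestrict_surjective _)
  · rintro _ ⟨p, rfl⟩
    rw [sumHom_apply, F.lft_off (hK.nil _ p.2.2) (Or.inl rfl),
      E.lft_off (hG.nil _ p.1.2) (Or.inl rfl)]
  · rintro _ ⟨p, rfl⟩ z
    cases hz : E.p z with
    | some x =>
      obtain ⟨x', g, hg, h1⟩ := hG.selfSimilar _ p.1.2 x
      refine ⟨E.i x', sumHom E F hd hd' hG hK (⟨g, hg⟩, 1), ⟨_, rfl⟩, fun w => ?_⟩
      have h2 : F.Off (z :: w) := Or.inr ⟨z, w, rfl, by rw [E.ip z x hz]; exact hd' x⟩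
      rw [sumHom_apply, sumHom_apply, F.lft_off (hK.nil _ p.2.2) h2, E.lft_cons h1 hz]
      show _ = E.i x' :: E.lft g (F.lft 1 w)
      rw [F.lft_one]
    | none =>
      cases hz' : F.p z with
      | some y =>
        obtain ⟨y', k, hk, h1⟩ := hK.selfSimilar _ p.2.2 y
        refine ⟨F.i y', sumHom E F hd hd' hG hK (1, ⟨k, hk⟩), ⟨_, rfl⟩, fun w => ?_⟩
        rw [sumHom_apply, sumHom_apply, F.lft_cons h1 hz',
          E.lft_off (hG.nil _ p.1.2) (Or.inr ⟨_, _, rfl, hd y'⟩)]
        show _ = F.i y' :: E.lft 1 (F.lft k w)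
        rw [E.lft_one]
      | none =>
        refine ⟨z, sumHom E F hd hd' hG hK 1, ⟨_, rfl⟩, fun w => ?_⟩
        rw [sumHom_apply, map_one, F.lft_off (hK.nil _ p.2.2) (Or.inr ⟨_, _, rfl, hz'⟩),
          E.lft_off (hG.nil _ p.1.2) (Or.inr ⟨_, _, rfl, hz⟩)]
        rfl
  · obtain ⟨N, hN, h1⟩ := hG.nucleus
    obtain ⟨M, hM, h2⟩ := hK.nucleus
    refine ⟨((insert 1 (N.subtype (· ∈ G))) ×ˢ (insert 1 (M.subtype (· ∈ K)))).image
      (sumHom E F hd hd' hG hK), ?_, ?_⟩
    · intro h hh
      obtain ⟨p, _, rfl⟩ := Finset.mem_image.1 hh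
      exact ⟨p, rfl⟩
    · rintro _ ⟨p, rfl⟩
      obtain ⟨a, ha⟩ := h1 _ p.1.2
      obtain ⟨b, hb⟩ := h2 _ p.2.2
      refine ⟨max a b + 1, fun v hv => ?_⟩
      have hone : sumHom E F hd hd' hG hK 1 ∈
          ((insert 1 (N.subtype (· ∈ G))) ×ˢ (insert 1 (M.subtype (· ∈ K)))).image
            (sumHom E F hd hd' hG hK) :=
        Finset.mem_image.2 ⟨1, Finset.mem_product.2
          ⟨Finset.mem_insert_self _ _, Finset.mem_insert_self _ _⟩, rfl⟩
      obtain ⟨z, t, rfl⟩ : ∃ z t, v = z :: t := by
        cases v with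
        | nil =>
          rw [List.length_nil] at hv
          omega
        | cons z t => exact ⟨z, t, rfl⟩
      cases hz : E.p z with
      | some x =>
        have hoff : ∀ s, F.Off (z :: s) := fun s =>
          Or.inr ⟨z, s, rfl, by rw [E.ip z x hz]; exact hd' x⟩
        rcases E.lft_cases p.1.1 (z :: t) with ⟨u, hu⟩ | h3
        · obtain ⟨g, hg, h3⟩ := ha u (by
            have := congrArg List.length hu
            rw [List.length_map] at this
            have h5 : a ≤ max a b := le_max_left _ _
            omega)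
          refine ⟨sumHom E F hd hd' hG hK (⟨g, hN g hg⟩, 1), Finset.mem_image.2 ⟨_, ?_, rfl⟩,
            fun w => ?_⟩
          · exact Finset.mem_product.2 ⟨Finset.mem_insert_of_mem (Finset.mem_subtype.2 hg),
              Finset.mem_insert_self _ _⟩
          · rw [sumHom_apply, sumHom_apply, sumHom_apply, List.cons_append,
              F.lft_off (hK.nil _ p.2.2) (hoff _), F.lft_off (hK.nil _ p.2.2) (hoff _),
              ← List.cons_append, hu, E.lft_map_append h3]
            show _ = _ ++ E.lft g (F.lft 1 w)
            rw [F.lft_one]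
        · refine ⟨sumHom E F hd hd' hG hK 1, hone, fun w => ?_⟩
          rw [sumHom_apply, sumHom_apply, map_one, List.cons_append,
            F.lft_off (hK.nil _ p.2.2) (hoff _), F.lft_off (hK.nil _ p.2.2) (hoff _),
            ← List.cons_append, h3]
          rfl
      | none =>
        have hoff : ∀ s, E.Off (z :: s) := fun s => Or.inr ⟨z, s, rfl, hz⟩
        have hoff' : ∀ s, E.lft p.1.1 (F.lft p.2.1 (z :: s)) = F.lft p.2.1 (z :: s) := fun s =>
          E.lft_off (hG.nil _ p.1.2) (off_lft E F hd hK p.2.2 (hoff s))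
        rcases F.lft_cases p.2.1 (z :: t) with ⟨u, hu⟩ | h3
        · obtain ⟨k, hk, h3⟩ := hb u (by
            have := congrArg List.length hu
            rw [List.length_map] at this
            have h5 : b ≤ max a b := le_max_right _ _
            omega)
          refine ⟨sumHom E F hd hd' hG hK (1, ⟨k, hM k hk⟩), Finset.mem_image.2 ⟨_, ?_, rfl⟩,
            fun w => ?_⟩
          · exact Finset.mem_product.2 ⟨Finset.mem_insert_self _ _,
              Finset.mem_insert_of_mem (Finset.mem_subtype.2 hk)⟩
          · rw [sumHom_apply, sumHom_apply, sumHom_apply, List.cons_append, hoff', hoff',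
              ← List.cons_append, hu, F.lft_map_append h3]
            show _ = _ ++ E.lft 1 (F.lft k w)
            rw [E.lft_one]
        · refine ⟨sumHom E F hd hd' hG hK 1, hone, fun w => ?_⟩
          rw [sumHom_apply, sumHom_apply, map_one, List.cons_append, hoff', hoff',
            ← List.cons_append, h3]
          rfl

end

end Pool.Agent.Y589.LP
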